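import Pool.Agent.PFC.StmtsB6
import Pool.Agent.Helper79_AT3.FUS
import Pool.Agent.Helper39_AT6.LWD

/-!
# Squad PFC, row FUW: the inertial group controls the fusion of the subgroups of `V`
-/

open scoped BigOperators

noncomputable section

namespace Pool.Agent.PFC.H33

open Pool.Agent.Helper51_AWC Pool.Agent.Helper79_WRA Pool.Agent.PP Pool.Agent.PP.KF
open Pool.Agent.PP.K9 Pool.Agent.PP.K9.H97 Pool.Agent.PP.H75 Pool.Agent.PP.T3 Pool.Agent.PP.T2

attribute [local instance] Ideal.Quotient.field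

/-- FUW -/
theorem fuw : FuwStmt := by
  intro ℓ _ M _ hM G _ _ e V γ hL Q Q' hQV hQV' b b' hb hb' g hg hgb
  have hVC : V ≤ Subgroup.centralizer (Q : Set G) := fun v hv =>
    Subgroup.mem_centralizer_iff.2 fun u hu => hL.ab u (hQV hu) v hv
  have hVC' : V ≤ Subgroup.centralizer (Q' : Set G) := fun v hv =>
    Subgroup.mem_centralizer_iff.2 fun u hu => hL.ab u (hQV' hu) v hv
  have hXC : Subgroup.centralizer (V : Set G) ≤ Subgroup.centralizer (Q : Set G) :=
    Subgroup.centralizer_le hQV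
  have hXN : Subgroup.centralizer (V : Set G) ≤ Subgroup.normalizer (V : Set G) :=
    Subgroup.centralizer_le_normalizer _
  obtain ⟨hLb, -⟩ := (T6.H39.lwd ℓ M hM G e V γ hL Q hQV).2 b hb
  obtain ⟨hf1, ⟨hf2, -⟩, -⟩ :=
    H69.fmg ℓ M hM (Subgroup.centralizer (Q : Set G)) _ hLb.blk _ hLb.tp
  -- `br_V b` is a block of `N(V) ∩ C(Q)`
  have hext : PP.ext0 (Subgroup.centralizer (Q : Set G))
      (fun t : Subgroup.centralizer (Q : Set G) => b t) = b := by
    funext x
    by_cases hx : x ∈ Subgroup.centralizer (Q : Set G)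
    · rw [H46.ext0_of_mem _ hx]
    · rw [H46.ext0_of_not_mem _ hx, hb.blk.supp x hx]
  have hbx := bx_of hVC hXC hXN hf2
  rw [hext] at hbx
  -- a good element
  obtain ⟨x, hxV, hxb⟩ : ∃ x ∈ Subgroup.centralizer (V : Set G), b' x ≠ 0 := by
    by_contra hno
    push Not at hno
    apply hL.gam.ne
    rw [← hb'.gam]
    have h0 : br V b' = 0 := by
      funext t
      by_cases ht : t ∈ Subgroup.centralizer (V : Set G)
      · rw [H66.br_of_mem ht, hno t ht]
        rfl
      · rw [H66.br_of_not_mem ht]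
        rfl
    rw [h0]
    funext t
    simp [mulF]
  -- conjugates
  have hQC : conjS g V ≤ Subgroup.centralizer (Q : Set G) := by
    intro y hy
    rw [mem_conjS] at hy
    rw [Subgroup.mem_centralizer_iff]
    intro u hu
    have hu' : g⁻¹ * u * g ∈ Q' := by
      rw [hg, show g * (g⁻¹ * u * g) * g⁻¹ = u by group]
      exact hu
    have h1 := Subgroup.mem_centralizer_iff.1 (hVC' hy) _ hu'
    have h2 : u * y = g * ((g⁻¹ * u * g) * (g⁻¹ * y * g)) * g⁻¹ := by group
    rw [h2, h1]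
    group
  set P : Subgroup (Subgroup.centralizer (Q : Set G)) :=
    (conjS g V).subgroupOf (Subgroup.centralizer (Q : Set G)) with hP
  have hQp : IsPGroup ℓ P :=
    (hL.tp.pg.map (MulAut.conj g).toMonoidHom).of_equiv (Subgroup.subgroupOfEquivOfLe hQC).symm
  have hgxg : ∀ y ∈ conjS g V, y * (g * x * g⁻¹) = (g * x * g⁻¹) * y := by
    intro y hy
    rw [mem_conjS] at hy
    have h1 := Subgroup.mem_centralizer_iff.1 hxV _ hy
    have h2 : y * (g * x * g⁻¹) = g * ((g⁻¹ * y * g) * x) * g⁻¹ := by group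
    rw [h2, h1]
    group
  have hgx : g * x * g⁻¹ ∈ Subgroup.centralizer (Q : Set G) := by
    rw [Subgroup.mem_centralizer_iff]
    intro u hu
    have h1 : u ∈ conjS g V := by
      rw [mem_conjS]
      apply hQV'
      rw [hg, show g * (g⁻¹ * u * g) * g⁻¹ = u by group]
      exact hu
    exact hgxg u h1
  have hQg : Gd (fun t : Subgroup.centralizer (Q : Set G) => b t) P := by
    refine ⟨⟨g * x * g⁻¹, hgx⟩, ?_, ?_⟩
    · rw [Subgroup.mem_centralizer_iff]
      intro y hy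
      exact Subtype.ext (hgxg y hy)
    · show b (g * x * g⁻¹) ≠ 0
      rw [← hgb]
      show b' (g⁻¹ * (g * x * g⁻¹) * g) ≠ 0
      rwa [show g⁻¹ * (g * x * g⁻¹) * g = x by group]
  obtain ⟨c, hc⟩ := hf1 P hQp hQg
  -- `n = c⁻¹ g` normalises `V`
  set n : G := (c : G)⁻¹ * g with hn
  have h4 : ∀ v ∈ V, n * v * n⁻¹ ∈ V := by
    intro v hv
    have h5 : g * v * g⁻¹ ∈ conjS g V := by
      rw [mem_conjS, show g⁻¹ * (g * v * g⁻¹) * g = v by group]
      exact hv
    have h6 : (⟨g * v * g⁻¹, hQC h5⟩ : Subgroup.centralizer (Q : Set G)) ∈ P := h5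
    have h7 := hc h6
    rw [mem_conjS] at h7
    have h8 : (c : G)⁻¹ * (g * v * g⁻¹) * c ∈ V := h7
    rwa [show n * v * n⁻¹ = (c : G)⁻¹ * (g * v * g⁻¹) * c by rw [hn]; group]
  have hnN : n ∈ Subgroup.normalizer (V : Set G) := by
    have h9 : conjS n V = V := by
      apply Subgroup.eq_of_le_of_card_ge
      · intro y hy
        rw [mem_conjS] at hy
        have := h4 _ hy
        rwa [show n * (n⁻¹ * y * n) * n⁻¹ = y by group] at this
      · exact (Nat.card_congr (V.equivMapOfInjective (MulAut.conj n).toMonoidHom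
          (MulAut.conj n).injective).toEquiv).le
    rw [Subgroup.mem_normalizer_iff]
    intro v
    conv_rhs => rw [← h9]
    rw [mem_conjS, show n⁻¹ * (n * v * n⁻¹) * n = v by group]
  have hcu : ∀ u ∈ Q, u * (c : G) = c * u := fun u hu =>
    Subgroup.mem_centralizer_iff.1 c.2 u hu
  have hnu : ∀ u' ∈ Q', n * u' * n⁻¹ = g * u' * g⁻¹ := by
    intro u' hu'
    have h1 : n * u' * n⁻¹ = (c : G)⁻¹ * ((g * u' * g⁻¹) * c) := by rw [hn]; group
    rw [h1, hcu _ ((hg u').1 hu')]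
    group
  have hnb : H75.cj n b' = b := by
    rw [hn, ← cj_cj, hgb]
    exact hb.blk.ix.inv (inv_mem c.2)
  -- the block `cj n γ`
  have hnγ : Bx (Subgroup.centralizer (V : Set G)) (H75.cj n γ) :=
    hL.gam.cj (T3.H79.norm_cent V hnN)
  have hbn : mulF (br V b) (H75.cj n γ) = H75.cj n γ := by
    have h1 := congrArg (H75.cj n) hb'.gam
    rw [cj_mulF, T3.H79.cj_br hnN, hnb] at h1
    exact h1
  obtain ⟨m, hm, hmn⟩ := H97.orb_main
    (N := Subgroup.normalizer (V : Set G) ⊓ Subgroup.centralizer (Q : Set G))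
    (X := Subgroup.centralizer (V : Set G)) (le_inf hXN hXC)
    (inf_le_left.trans (T3.H79.norm_cent V)) hbx hL.gam hnγ hb.gam hbn
  refine ⟨m⁻¹ * n, ⟨Subgroup.mul_mem _ (inv_mem hm.1) hnN, ?_⟩, ?_⟩
  · have h1 : H75.cj (m⁻¹ * n) γ = γ := by
      rw [← cj_cj, hmn, cj_inv_cj]
    exact (cj_eq_iff _ _).1 h1
  · intro u' hu'
    have hmu := Subgroup.mem_centralizer_iff.1 hm.2 _ ((hg u').1 hu')
    have h1 : m⁻¹ * n * u' * (m⁻¹ * n)⁻¹ = m⁻¹ * ((n * u' * n⁻¹) * m) := by group
    rw [h1, hnu u' hu', hmu]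
    group

end Pool.Agent.PFC.H33
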