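import Pool.Agent.PFC.StmtsB2

/-!
# Squad PFC, row SCH: Schur's lemma
-/

noncomputable section

namespace Pool.Agent.PFC.B2.H33

open Pool.Agent.PFC.B1 Pool.Agent.PFC.B2

theorem stb_ker {R A k M N : Type} [CommRing R] [Ring A] [Algebra R A] [CommRing k] [Algebra R k]
    [AddCommGroup M] [Module k M] [AddCommGroup N] [Module k N] {ρ : Rp R A k M}
    {σ : Rp R A k N} {f : M →ₗ[k] N} (hf : IsHom ρ σ f) : Stb ρ (LinearMap.ker f) := by
  intro a w hw
  rw [LinearMap.mem_ker] at hw ⊢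
  rw [hf a w, hw, map_zero]

theorem stb_range {R A k M N : Type} [CommRing R] [Ring A] [Algebra R A] [CommRing k]
    [Algebra R k] [AddCommGroup M] [Module k M] [AddCommGroup N] [Module k N] {ρ : Rp R A k M}
    {σ : Rp R A k N} {f : M →ₗ[k] N} (hf : IsHom ρ σ f) : Stb σ (LinearMap.range f) := by
  rintro a _ ⟨x, rfl⟩
  exact ⟨ρ.ρ a x, hf a x⟩

/-- SCH -/
theorem sch : SchStmt := by
  intro R A k M N _ _ _ _ _ _ _ _ _ ρ σ f hρ hσ hf h0
  constructor
  · rw [← LinearMap.ker_eq_bot]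
    rcases hρ.2 _ (stb_ker hf) with h | h
    · exact h
    · exact absurd (LinearMap.ker_eq_top.1 h) h0
  · rw [← LinearMap.range_eq_top]
    rcases hσ.2 _ (stb_range hf) with h | h
    · exact absurd (LinearMap.range_eq_bot.1 h) h0
    · exact h

end Pool.Agent.PFC.B2.H33
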