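import Pool.Agent.PFC.StmtsB2
import Pool.Agent.Helper33_PFC.SCH

/-!
# Squad PFC, row HUL: Higman projective hulls of irreducible representations
-/

noncomputable section

namespace Pool.Agent.PFC.B2.H33

open Pool.Agent.PFC.B1 Pool.Agent.PFC.B2 Filter

/-- the ring over itself -/
def fsR (R : Type) [CommRing R] : FS R R Unit where
  lam := LinearMap.id
  b := fun _ => 1
  b' := fun _ => 1
  h1 := fun x => by simp
  h2 := fun x => by simp

theorem hp_R {R k S : Type} [CommRing R] [CommRing k] [Algebra R k] [AddCommGroup S] [Module k S]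
    (σ : Rp R R k S) : HP (fsR R) σ := by
  refine ⟨LinearMap.id, ?_⟩
  apply LinearMap.ext
  intro x
  have h1 : (σ.ρ (1 : R)) = LinearMap.id := by
    rw [map_one]
    rfl
  show (∑ i : Unit, (σ.ρ ((fsR R).b i)) ∘ₗ LinearMap.id ∘ₗ (σ.ρ ((fsR R).b' i))) x = x
  rw [Fintype.sum_unique]
  show (σ.ρ (1 : R)) ((σ.ρ (1 : R)) x) = x
  rw [h1]
  rfl

/-- direct sum of two representations -/
def prRp {R A k M N : Type} [CommRing R] [Ring A] [Algebra R A] [CommRing k] [Algebra R k]
    [AddCommGroup M] [Module k M] [AddCommGroup N] [Module k N] (ρ : Rp R A k M)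
    (σ : Rp R A k N) : Rp R A k (M × N) where
  ρ :=
    { toFun := fun a => (ρ.ρ a).prodMap (σ.ρ a)
      map_one' := by
        rw [map_one, map_one]
        rfl
      map_mul' := fun a b => by
        rw [map_mul, map_mul]
        rfl
      map_zero' := by
        rw [map_zero, map_zero]
        rfl
      map_add' := fun a b => by
        rw [map_add, map_add]
        rfl }
  sc := fun r x => Prod.ext (ρ.sc r x.1) (σ.sc r x.2)

/-- the map to the coinduced representation -/
def toCo {R Γ A k T : Type} [CommRing R] [Ring Γ] [Algebra R Γ] [Ring A] [Algebra R A]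
    [CommRing k] [Algebra R k] [AddCommGroup T] [Module k T] (j : Γ →ₐ[R] A) (τ : Rp R A k T) :
    T →ₗ[k] Co j (τ.res j) where
  toFun := fun t => ⟨fun x => τ.ρ x t, fun x y => by
      show τ.ρ (x + y) t = τ.ρ x t + τ.ρ y t
      rw [map_add]
      rfl, fun γ x => by
      show τ.ρ (j γ * x) t = τ.ρ (j γ) (τ.ρ x t)
      rw [map_mul]
      rfl⟩
  map_add' := fun s t => by
    apply Subtype.ext
    funext x
    exact map_add _ _ _
  map_smul' := fun c t => by
    apply Subtype.ext
    funext x
    exact map_smul _ _ _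

theorem toCo_hom {R Γ A k T : Type} [CommRing R] [Ring Γ] [Algebra R Γ] [Ring A] [Algebra R A]
    [CommRing k] [Algebra R k] [AddCommGroup T] [Module k T] (j : Γ →ₐ[R] A) (τ : Rp R A k T) :
    IsHom τ (coRp j (τ.res j)) (toCo j τ) := by
  intro a t
  apply Subtype.ext
  funext x
  show τ.ρ x (τ.ρ a t) = τ.ρ (x * a) t
  rw [map_mul]
  rfl

theorem toCo_inj {R Γ A k T : Type} [CommRing R] [Ring Γ] [Algebra R Γ] [Ring A] [Algebra R A]
    [CommRing k] [Algebra R k] [AddCommGroup T] [Module k T] (j : Γ →ₐ[R] A) (τ : Rp R A k T)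
    {t : T} (h : toCo j τ t = 0) : t = 0 := by
  have h1 : τ.ρ 1 t = 0 := congrFun (congrArg Subtype.val h) 1
  rw [map_one] at h1
  exact h1

/-- a nonzero intertwiner from an irreducible representation is injective -/
theorem inj_of_irr {R A k M N : Type} [CommRing R] [Ring A] [Algebra R A] [CommRing k]
    [Algebra R k] [AddCommGroup M] [Module k M] [AddCommGroup N] [Module k N] {ρ : Rp R A k M}
    {σ : Rp R A k N} {f : M →ₗ[k] N} (hρ : Irr ρ) (hf : IsHom ρ σ f) (h0 : f ≠ 0) :
    Function.Injective f := by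
  rw [← LinearMap.ker_eq_bot]
  rcases hρ.2 _ (stb_ker hf) with h | h
  · exact h
  · exact absurd (LinearMap.ker_eq_top.1 h) h0

/-- two injective intertwiners from irreducible representations which are not isomorphic have
disjoint ranges -/
theorem disj_range {R A k M T T' : Type} [CommRing R] [Ring A] [Algebra R A] [Field k]
    [Algebra R k] [AddCommGroup M] [Module k M] [AddCommGroup T] [Module k T] [AddCommGroup T']
    [Module k T'] {μ : Rp R A k M} {τ : Rp R A k T} {τ' : Rp R A k T'} {f : T →ₗ[k] M}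
    {f' : T' →ₗ[k] M} (hτ : Irr τ) (hτ' : Irr τ') (hf : IsHom τ μ f) (hf' : IsHom τ' μ f')
    (hi : Function.Injective f) (hi' : Function.Injective f') (hni : ¬ Iso τ τ') :
    Disjoint (LinearMap.range f) (LinearMap.range f') := by
  have hs : Stb τ ((LinearMap.range f').comap f) := by
    intro a w hw
    rw [Submodule.mem_comap] at hw ⊢
    rw [hf a w]
    exact stb_range hf' a _ hw
  have hs' : Stb τ' ((LinearMap.range f).comap f') := by
    intro a w hw
    rw [Submodule.mem_comap] at hw ⊢
    rw [hf' a w]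
    exact stb_range hf a _ hw
  rw [Submodule.disjoint_def]
  rintro x ⟨t, rfl⟩ ⟨t', ht'⟩
  rcases hτ.2 _ hs with h | h
  · have h1 : t ∈ (LinearMap.range f').comap f := ⟨t', ht'⟩
    rw [h, Submodule.mem_bot] at h1
    rw [h1, map_zero]
  · rcases hτ'.2 _ hs' with h' | h'
    · have h1 : t' ∈ (LinearMap.range f).comap f' := ⟨t, ht'.symm⟩
      rw [h', Submodule.mem_bot] at h1
      rw [← ht', h1, map_zero]
    · exfalso
      apply hni
      have hr : ∀ s : T, ∃ s' : T', f' s' = f s := by
        intro s
        have h1 : s ∈ (LinearMap.range f').comap f := by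
          rw [h]
          exact Submodule.mem_top
        exact h1
      have hr' : ∀ s' : T', ∃ s : T, f s = f' s' := by
        intro s'
        have h1 : s' ∈ (LinearMap.range f).comap f' := by
          rw [h']
          exact Submodule.mem_top
        exact h1
      choose g hg using hr
      choose g' hg' using hr'
      refine ⟨LinearEquiv.mk ⟨⟨g, ?_⟩, ?_⟩ g' ?_ ?_, ?_⟩
      · intro a b
        apply hi'
        rw [hg, map_add, map_add, hg, hg]
      · intro c a
        apply hi'
        rw [hg, map_smul, map_smul, hg, RingHom.id_apply]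
      · intro a
        apply hi
        rw [hg', hg]
      · intro a
        apply hi'
        rw [hg, hg']
      · intro a x
        apply hi'
        show f' (g (τ.ρ a x)) = f' (τ'.ρ a (g x))
        rw [hg, hf, hf', hg]

theorem isHom_pow {R A k M : Type} [CommRing R] [Ring A] [Algebra R A] [CommRing k] [Algebra R k]
    [AddCommGroup M] [Module k M] {μ : Rp R A k M} {g : M →ₗ[k] M} (hg : IsHom μ μ g) (n : ℕ) :
    IsHom μ μ ((g : Module.End k M) ^ n) := by
  induction n with
  | zero =>
    intro a x
    rw [pow_zero]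
    rfl
  | succ n ih =>
    intro a x
    rw [pow_succ]
    show ((g : Module.End k M) ^ n) (g (μ.ρ a x)) = μ.ρ a (((g : Module.End k M) ^ n) (g x))
    rw [hg a x, ih a (g x)]

/-- HUL -/
theorem hul (pin : PinStmt) (coh : CohStmt) (qfi : QfiStmt) : HulStmt := by
  intro R A J k T _ _ _ _ _ _ _ _ _ _ d τ hτ
  classical
  -- existence
  have hex : ∃ n : ℕ, ∃ (M : Type) (_ : AddCommGroup M) (_ : Module k M) (_ : Module.Finite k M)
      (μ : Rp R A k M), Module.finrank k M = n ∧ HP d μ ∧ ∃ f : T →ₗ[k] M, IsHom τ μ f ∧ f ≠ 0 := by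
    have hfin : Module.Finite k (Co (Algebra.ofId R A) (τ.res (Algebra.ofId R A))) :=
      qfi.1 R R A k T (Algebra.ofId R A) (τ.res (Algebra.ofId R A))
    refine ⟨_, Co (Algebra.ofId R A) (τ.res (Algebra.ofId R A)), inferInstance, inferInstance,
      hfin, coRp _ _, rfl, coh R R A Unit J k T (fsR R) d _ _ (hp_R _),
      toCo (Algebra.ofId R A) τ, toCo_hom _ _, ?_⟩
    intro h0
    obtain ⟨t, ht⟩ := (@exists_ne T hτ.1 0)
    exact ht (toCo_inj (Algebra.ofId R A) τ (by rw [h0]; rfl))
  obtain ⟨n, hn, hmin⟩ : ∃ n : ℕ, (∃ (M : Type) (_ : AddCommGroup M) (_ : Module k M)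
      (_ : Module.Finite k M) (μ : Rp R A k M), Module.finrank k M = n ∧ HP d μ ∧
        ∃ f : T →ₗ[k] M, IsHom τ μ f ∧ f ≠ 0) ∧ ∀ m < n, ¬ (∃ (M : Type) (_ : AddCommGroup M)
      (_ : Module k M) (_ : Module.Finite k M) (μ : Rp R A k M), Module.finrank k M = m ∧
        HP d μ ∧ ∃ f : T →ₗ[k] M, IsHom τ μ f ∧ f ≠ 0) :=
    ⟨Nat.find hex, Nat.find_spec hex, fun m hm => Nat.find_min hex hm⟩
  obtain ⟨M, _, _, hMf, μ, hMn, hμ, f, hf, hf0⟩ := hn
  refine ⟨M, inferInstance, inferInstance, hMf, μ, hμ, ⟨f, hf, hf0⟩, ?_⟩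
  intro T' _ _ _ τ' hτ' hni f' hf'
  by_contra hf0'
  have hi := inj_of_irr hτ hf hf0
  have hi' := inj_of_irr hτ' hf' hf0'
  have hdis := disj_range hτ hτ' hf hf' hi hi' hni
  -- the extension
  have hinj : Function.Injective (f.coprod f') := by
    rw [← LinearMap.ker_eq_bot, LinearMap.ker_coprod_of_disjoint_range f f' hdis,
      LinearMap.ker_eq_bot.2 hi, LinearMap.ker_eq_bot.2 hi', Submodule.prod_bot]
  obtain ⟨r, hr⟩ := LinearMap.exists_leftInverse_of_injective (f.coprod f')
    (LinearMap.ker_eq_bot.2 hinj)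
  have hci : IsHom (prRp τ τ') μ (f.coprod f') := by
    intro a x
    show f (τ.ρ a x.1) + f' (τ'.ρ a x.2) = μ.ρ a (f x.1 + f' x.2)
    rw [hf, hf', map_add]
  have hfst : IsHom (prRp τ τ') μ (f ∘ₗ LinearMap.fst k T T') := by
    intro a x
    show f (τ.ρ a x.1) = μ.ρ a (f x.1)
    exact hf a x.1
  obtain ⟨g, hg, hgi⟩ := ((pin.1 R A J k M (T × T') M d μ (prRp τ τ') μ hμ).2
    (f.coprod f') r (f ∘ₗ LinearMap.fst k T T') hci hr hfst)
  have hgf : ∀ t, g (f t) = f t := by
    intro t
    have h1 := LinearMap.congr_fun hgi (t, 0)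
    simpa using h1
  have hgf' : ∀ t', g (f' t') = 0 := by
    intro t'
    have h1 := LinearMap.congr_fun hgi (0, t')
    simpa using h1
  -- Fitting
  obtain ⟨N, hN⟩ := (LinearMap.eventually_isCompl_ker_pow_range_pow
    (g : Module.End k M)).exists_forall_of_atTop
  have hc := hN (N + 1) (Nat.le_succ N)
  set q : Module.End k M := (g : Module.End k M) ^ (N + 1) with hq
  have hqh : IsHom μ μ q := isHom_pow hg _
  have hqf : ∀ t, q (f t) = f t := by
    intro t
    have h1 : ∀ m : ℕ, ((g : Module.End k M) ^ m) (f t) = f t := by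
      intro m
      induction m with
      | zero => rfl
      | succ m ih =>
        rw [pow_succ]
        show ((g : Module.End k M) ^ m) (g (f t)) = f t
        rw [hgf, ih]
    exact h1 _
  have hqf' : ∀ t', q (f' t') = 0 := by
    intro t'
    rw [hq, pow_succ]
    show ((g : Module.End k M) ^ N) (g (f' t')) = 0
    rw [hgf', map_zero]
  have hsR : Stb μ (LinearMap.range q) := stb_range hqh
  have hsK : Stb μ (LinearMap.ker q) := stb_ker hqh
  -- the smaller representation
  have hproj : IsHom μ (subRp μ (LinearMap.range q) hsR)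
      ((LinearMap.range q).projectionOnto (LinearMap.ker q) hc.symm) := by
    intro a x
    obtain ⟨y, hy, z, hz, rfl⟩ := Submodule.mem_sup.1
      (show x ∈ LinearMap.range q ⊔ LinearMap.ker q by
        rw [hc.symm.sup_eq_top]
        exact Submodule.mem_top)
    rw [map_add, map_add, map_add,
      Submodule.projectionOnto_apply_of_mem_left hc.symm (hsR a y hy),
      (Submodule.projectionOnto_apply_eq_zero_iff hc.symm).2 (hsK a z hz),
      Submodule.projectionOnto_apply_of_mem_left hc.symm hy,
      (Submodule.projectionOnto_apply_eq_zero_iff hc.symm).2 hz, add_zero, add_zero]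
    rfl
  have hHP : HP d (subRp μ (LinearMap.range q) hsR) := by
    refine pin.2 R A J k M (LinearMap.range q) d μ (subRp μ (LinearMap.range q) hsR)
      (LinearMap.range q).subtype
      ((LinearMap.range q).projectionOnto (LinearMap.ker q) hc.symm) ?_ hproj ?_ hμ
    · intro a x
      rfl
    · apply LinearMap.ext
      intro x
      exact Submodule.projectionOnto_apply_left hc.symm x
  have hlt : Module.finrank k (LinearMap.range q) < n := by
    rw [← hMn]
    apply Submodule.finrank_lt
    intro htop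
    have h1 : LinearMap.ker q = ⊥ := by
      have h2 := hc.inf_eq_bot
      rwa [htop, inf_top_eq] at h2
    apply hf0'
    apply LinearMap.ext
    intro t'
    have h2 : f' t' ∈ LinearMap.ker q := hqf' t'
    rw [h1, Submodule.mem_bot] at h2
    rw [h2]
    rfl
  apply hmin _ hlt
  refine ⟨LinearMap.range q, inferInstance, inferInstance, inferInstance,
    subRp μ (LinearMap.range q) hsR, rfl, hHP,
    f.codRestrict (LinearMap.range q) (fun t => ⟨f t, hqf t⟩), ?_, ?_⟩
  · intro a t
    apply Subtype.ext
    exact hf a t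
  · intro h0
    apply hf0
    apply LinearMap.ext
    intro t
    exact congrArg Subtype.val (LinearMap.congr_fun h0 t)

end Pool.Agent.PFC.B2.H33
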