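import Pool.Agent.PFC.StmtsB5c
import Pool.Agent.PFC.B4.Key

/-!
# Squad PFC, row NDM: the degree of `N` is prime to `ℓ`
-/

open scoped BigOperators TensorProduct

noncomputable section

namespace Pool.Agent.PFC.H33

open Pool.Agent.PFC

/-- the number of elements of a transversal of a proper subgroup is zero in characteristic `ℓ` -/
theorem card_tv_zero (ℓ : ℕ) [Fact ℓ.Prime] {F V : Type} [Field F] [CharP F ℓ] [Group V]
    [Finite V] {K Q : Subgroup V} (hQ : IsPGroup ℓ Q) (hlt : K < Q) {S : Finset V}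
    (hS : IsTv K Q S) : (S.card : F) = 0 := by
  have hc := card_tv K Q hlt.le S hS
  obtain ⟨k, hk⟩ := (IsPGroup.iff_card).1 hQ
  have hdiv : S.card ∣ ℓ ^ k := ⟨_, by rw [← hk]; exact hc.symm⟩
  obtain ⟨j, -, hj⟩ := (Nat.dvd_prime_pow (Fact.out : ℓ.Prime)).1 hdiv
  rcases Nat.eq_zero_or_pos j with h0 | h0
  · exfalso
    rw [h0, pow_zero] at hj
    rw [hj, one_mul] at hc
    exact hlt.ne (Subgroup.eq_of_le_of_card_ge hlt.le hc.ge)
  · rw [hj, Nat.cast_pow, CharP.cast_eq_zero, zero_pow h0.ne']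

/-- a relative trace from a proper subgroup has trace zero -/
theorem trace_PT (ℓ : ℕ) [Fact ℓ.Prime] {F V M : Type} [Field F] [CharP F ℓ] [Group V]
    [Finite V] [AddCommGroup M] [Module F M] [FiniteDimensional F M]
    (ρ : V →* (M →ₗ[F] M)) {Q : Subgroup V} (hQ : IsPGroup ℓ Q) (T : M →ₗ[F] M)
    (hT : T ∈ PT ρ Q) : LinearMap.trace F M T = 0 := by
  unfold PT at hT
  induction hT using Submodule.span_induction with
  | mem T hT =>
    obtain ⟨K, S, h, hlt, hS, -, hTm⟩ := hT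
    have h1 : T = ∑ x ∈ S, ρ x * (h * ρ x⁻¹) := by
      apply LinearMap.ext
      intro m
      rw [hTm m, LinearMap.sum_apply]
      rfl
    rw [h1, map_sum]
    have h2 : ∀ x ∈ S, LinearMap.trace F M (ρ x * (h * ρ x⁻¹)) = LinearMap.trace F M h := by
      intro x _
      rw [LinearMap.trace_mul_comm, mul_assoc, ← map_mul, inv_mul_cancel, map_one, mul_one]
    rw [Finset.sum_congr rfl h2, Finset.sum_const, nsmul_eq_mul, card_tv_zero ℓ hQ hlt hS,
      zero_mul]
  | zero => exact map_zero _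
  | add a b _ _ ha hb => rw [map_add, ha, hb, add_zero]
  | smul r a _ ha => rw [map_smul, ha, smul_zero]

/-- the dimensions of a module and of its Brauer quotient agree in characteristic `ℓ` -/
theorem finrank_BrS (ℓ : ℕ) [Fact ℓ.Prime] {F V M N : Type} [Field F] [CharP F ℓ] [Group V]
    [Finite V] [AddCommGroup M] [Module F M] [FiniteDimensional F M]
    [AddCommGroup N] [Module F N] [FiniteDimensional F N]
    (ρ : V →* (M →ₗ[F] M)) (ρ' : V →* (N →ₗ[F] N)) {Q : Subgroup V} (hQ : IsPGroup ℓ Q)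
    {β : M →ₗ[F] N} {s : N →ₗ[F] M} (h : BrS ρ ρ' Q β s) :
    (Module.finrank F M : F) = (Module.finrank F N : F) := by
  have h1 := trace_PT ℓ ρ hQ _ h.hg
  rw [map_sub, LinearMap.trace_id, sub_eq_zero] at h1
  rw [h1, LinearMap.trace_comp_comm']
  have h2 : β ∘ₗ s = LinearMap.id := LinearMap.ext h.bs
  rw [h2, LinearMap.trace_id]

/-- NDM -/
theorem ndm : B5c.NdmStmt := by
  intro ℓ _ F V _ _ _ _ N hV hN _ hq
  obtain ⟨n, hn, ⟨e⟩⟩ := hN
  obtain ⟨β, s, hb⟩ := hq
  refine ⟨n, hn, ?_, ⟨e⟩⟩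
  have h1 := finrank_BrS ℓ _ _ (hV.to_subgroup ⊤) hb.toBrS
  have h2 : Module.finrank F (IA.one F V).A = 1 := Module.finrank_self F
  have h3 : Module.finrank F N.A = n * n := by
    rw [e.toLinearEquiv.finrank_eq, Module.finrank_matrix]
    simp
  rw [h2, h3] at h1
  intro h0
  rw [Nat.cast_mul, h0, zero_mul, Nat.cast_one] at h1
  exact zero_ne_one h1

end Pool.Agent.PFC.H33
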